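import Pool.Agent.Q283.FG.Stm4

/-!
# Project FG of helper283: the Selmer group and the conditions of the tables
-/

set_option autoImplicit false

namespace Pool.Agent.Q224.FG

open NumberField IsDedekindDomain
open Pool.Agent.Q283.LQ (Sm)
open Pool.Agent.Q7.LK
open Pool.Agent.Q283.FT (Rt twi Gd AX)
open Pool.Agent.Q283.FG

lemma rt_twi {F : Type} [Field F] {e : Fin 3 → F} (he : Rt e) {D : F} (hD : D ≠ 0) : Rt (twi D e) := by
  refine ⟨fun i j h => he.inj (mul_left_cancel₀ hD h), ?_⟩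
  show D * e 0 + D * e 1 + D * e 2 = 0
  rw [← mul_add, ← mul_add, he.sum, mul_zero]

lemma twi_twi {F : Type} [Field F] (n D : F) (e : Fin 3 → F) : twi n (twi D e) = twi (n * D) e := by
  funext i
  show n * (D * e i) = n * D * e i
  rw [mul_assoc]

lemma exists_place (F : Type) [Field F] [NumberField F] : Nonempty (HeightOneSpectrum (𝓞 F)) := by
  obtain ⟨M, hM⟩ := Ideal.exists_maximal (𝓞 F)
  exact ⟨⟨M, hM.isPrime, Ring.ne_bot_of_isMaximal_of_not_isField hM (RingOfIntegers.not_isField F)⟩⟩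

theorem ful (hLCP : Pool.Agent.Q283.FG.S_LCP) (hGDU : Pool.Agent.Q283.FG.S_GDU) (hGDR : Pool.Agent.Q283.FG.S_GDR)
    (hRLC : Pool.Agent.Q283.FG.S_RLC) (hBAS : Pool.Agent.Q7.LK.S_BAS) : Pool.Agent.Q283.FG.S_FUL := by
  intro F _ _ e he y hgd D0 D hD0 hD hsm a b
  have hsm' : ∀ v : HeightOneSpectrum (𝓞 F), Sm y v → Lpw 2 v (D0 / D) := by
    intro v hv
    have h := (hBAS 2 F v).2.2.2.1 _ (hsm.1.2 v hv)
    rwa [inv_div] at h
  have hre' : ∀ φ : F →+* ℝ, 0 < φ (D0 / D) := by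
    intro φ
    have h := inv_pos.2 (hsm.2 φ)
    rwa [← map_inv₀, inv_div] at h
  have e1 : twi (D / D0) (twi D0 e) = twi D e := by rw [twi_twi, div_mul_cancel₀ _ hD0]
  have e2 : twi (D0 / D) (twi D e) = twi D0 e := by rw [twi_twi, div_mul_cancel₀ _ hD]
  constructor
  · rintro ⟨h, hr⟩
    obtain ⟨v0⟩ := exists_place F
    have hne : a ≠ 0 ∧ b ≠ 0 := ⟨(h v0).1, (h v0).2.1⟩
    refine ⟨hne, fun v hv hvl => ?_, fun v hv hvl => ?_, fun v hv => ?_, fun φ => ?_⟩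
    · exact (hGDU F v e he (hgd v hv) D a b hD hne.1 hne.2 hvl).mp (h v)
    · exact (hGDR F v e he (hgd v hv) D a b hD hvl).mp (h v)
    · have h1 := (hLCP F (twi D e) (rt_twi he hD) v).2.2.1 a b (D0 / D) (hsm' v hv) (h v)
      rwa [e2] at h1
    · have h1 := (hRLC F (twi D e) (rt_twi he hD) φ).2.2.1 a b (D0 / D) (hre' φ) (hr φ)
      rwa [e2] at h1
  · intro h
    refine ⟨fun v => ?_, fun φ => ?_⟩
    · by_cases hv : Sm y v
      · have h1 := (hLCP F (twi D0 e) (rt_twi he hD0) v).2.2.1 a b (D / D0) (hsm.1.2 v hv) (h.loc v hv)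
        rwa [e1] at h1
      · by_cases hvl : vl 2 v D = 0
        · exact (hGDU F v e he (hgd v hv) D a b hD h.ne.1 h.ne.2 hvl).mpr (h.unr v hv hvl)
        · exact (hGDR F v e he (hgd v hv) D a b hD hvl).mpr (h.ram v hv hvl)
    · have h1 := (hRLC F (twi D0 e) (rt_twi he hD0) φ).2.2.1 a b (D / D0) (hsm.2 φ) (h.real φ)
      rwa [e1] at h1

end Pool.Agent.Q224.FG
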